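import Pool.Agent.Helper72.BW.Walk

/-!
# MAR: a certificate bounds the probability of few visits
-/

set_option linter.unusedSectionVars false

open MeasureTheory Filter Topology
open scoped ENNReal

namespace Pool.Agent.Helper72.BW.MAR

open Pool.Agent.Helper51.BW Pool.Agent.Helper72.BW

theorem main : S_MAR := by
  classical
  intro d Ω mΩ μ _ p X hp0 hp1 h i E hE F B x l P q ρ hl h0F hxF hFB hρ0 hq01 hqB hqx hPE hPx hqF
    hqρ
  -- the event of few visits up to time `N`
  set Bad : ℕ → Set Ω := fun N => {ω | ∃ n ≤ N, X i n ω ∈ B ∧ (∀ s < n, X i s ω ∉ B) ∧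
    ((Finset.range n).filter (fun s => X i s ω = x)).card < l} with hBad
  have hnn := nn hp0 hp1 h i
  have claim : ∀ k n : ℕ, ∀ z ∈ F, ∀ m : ℕ, m < l → ∀ A : Set Ω, MeasurableSet[past X i n] A →
      A ⊆ E → (∀ ω ∈ A, X i n ω = z ∧ (∀ s ≤ n, X i s ω ∉ B) ∧
        ((Finset.range n).filter (fun s => X i s ω = x)).card = m) →
      μ (A ∩ Bad (n + k)) ≤ ENNReal.ofReal (q z + ρ * ((l : ℝ) - 1 - m)) * μ A := by
    intro k
    induction k with
    | zero =>
      intro n z hz m hm A hA hAE hAm
      have h1 : A ∩ Bad (n + 0) = ∅ := by
        rw [Set.eq_empty_iff_forall_notMem]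
        rintro ω ⟨hω, t, ht, hB, -, -⟩
        exact (hAm ω hω).2.1 t (by omega) hB
      rw [h1]
      simp
    | succ k ih =>
      intro n z hz m hm A hA hAE hAm
      rcases A.eq_empty_or_nonempty with he | ⟨ω0, hω0⟩
      · rw [he]
        simp
      have hA' : MeasurableSet A := past_le h i n A hA
      -- the transition probabilities
      have hP0 : ∀ e, 0 ≤ P z e := by
        intro e
        rw [← hPE ω0 (hAE hω0) z hz e]
        exact trans_nonneg (hp0 i) _ _ _
      have hP1 : ∑ e, P z e ≤ 1 := by
        have h1 : ∑ e, P z e = ∑ e, Pool.Agent.Helper51.BW.trans (p i) (env X i ω0) z e :=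
          Finset.sum_congr rfl fun e _ => (hPE ω0 (hAE hω0) z hz e).symm
        rw [h1]
        exact trans_sum_le _ _
      set Ae : D d → Set Ω := fun e => A ∩ {ω | X i (n + 1) ω = z + dir e} with hAe
      have hAem : ∀ e, MeasurableSet[past X i (n + 1)] (Ae e) := by
        intro e
        exact MeasurableSet.inter (past_mono X i n A hA) (meas_cur X i (n + 1) (n + 1) le_rfl _)
      have hAep : ∀ e, μ (Ae e) = ENNReal.ofReal (P z e) * μ A := by
        intro e
        have h1 := step_int h i n e hA
        have h2 : A ∩ {ω | X i (n + 1) ω = X i n ω + dir e} = Ae e := by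
          ext ω
          constructor
          · rintro ⟨h3, h4⟩
            refine ⟨h3, ?_⟩
            change X i (n + 1) ω = X i n ω + dir e at h4
            rw [(hAm ω h3).1] at h4
            exact h4
          · rintro ⟨h3, h4⟩
            refine ⟨h3, ?_⟩
            change X i (n + 1) ω = X i n ω + dir e
            rw [(hAm ω h3).1]
            exact h4
        rw [h2] at h1
        have h3 : ∫ ω in A, Pool.Agent.Helper51.BW.trans (p i) (env X i ω) (X i n ω) e ∂μ =
            ∫ _ω in A, P z e ∂μ := by
          refine setIntegral_congr_fun hA' fun ω hω => ?_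
          rw [(hAm ω hω).1]
          exact hPE ω (hAE hω) z hz e
        rw [h3, setIntegral_const, smul_eq_mul] at h1
        rw [← ENNReal.ofReal_toReal (measure_ne_top μ (Ae e)), h1, mul_comm,
          ENNReal.ofReal_mul (hP0 e), Measure.real, ENNReal.ofReal_toReal (measure_ne_top μ A)]
      -- the cover
      have hcover : μ (A ∩ Bad (n + (k + 1))) ≤ ∑ e, μ (Ae e ∩ Bad (n + (k + 1))) := by
        have h1 : (A ∩ Bad (n + (k + 1)) : Set Ω) ≤ᵐ[μ]
            (⋃ e, Ae e ∩ Bad (n + (k + 1)) : Set Ω) := by
          filter_upwards [hnn] with ω hω h2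
          obtain ⟨e, he, -⟩ := hω n
          refine Set.mem_iUnion.2 ⟨e, ⟨h2.1, ?_⟩, h2.2⟩
          change X i (n + 1) ω = z + dir e
          rw [he, (hAm ω h2.1).1]
        refine le_trans (measure_mono_ae h1) ?_
        exact measure_iUnion_fintype_le μ _
      -- the number of visits
      set m' : ℕ := m + (if z = x then 1 else 0) with hm'
      have hcnt : ∀ ω ∈ A, ((Finset.range (n + 1)).filter (fun s => X i s ω = x)).card = m' := by
        intro ω hω
        have h1 := hAm ω hω
        rw [Finset.range_add_one, Finset.filter_insert, h1.1]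
        by_cases hzx : z = x
        · rw [if_pos hzx, Finset.card_insert_of_notMem (by simp), h1.2.2, hm', if_pos hzx]
        · rw [if_neg hzx, h1.2.2, hm', if_neg hzx, add_zero]
      set c : D d → ℝ := fun e => if m' < l then q (z + dir e) + ρ * ((l : ℝ) - 1 - m') else 0
        with hc
      have hcnn : ∀ e, 0 ≤ c e := by
        intro e
        simp only [hc]
        split_ifs with h1
        · have h2 : (m' : ℝ) + 1 ≤ l := by exact_mod_cast h1
          have h3 := (hq01 (z + dir e)).1
          nlinarith [mul_nonneg hρ0 (show (0 : ℝ) ≤ (l : ℝ) - 1 - m' by linarith)]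
        · exact le_rfl
      have hstep : ∀ e, μ (Ae e ∩ Bad (n + (k + 1))) ≤
          ENNReal.ofReal (c e * P z e) * μ A := by
        intro e
        have hmain : μ (Ae e ∩ Bad (n + (k + 1))) ≤ ENNReal.ofReal (c e) * μ (Ae e) ∨
            P z e = 0 := by
          by_cases hml : m' < l
          · have hc1 : c e = q (z + dir e) + ρ * ((l : ℝ) - 1 - m') := if_pos hml
            by_cases hzB : z + dir e ∈ B
            · left
              have h1 : (1 : ℝ) ≤ c e := by
                rw [hc1, hqB _ hzB]
                have h2 : (m' : ℝ) + 1 ≤ l := by exact_mod_cast hml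
                nlinarith [mul_nonneg hρ0 (show (0 : ℝ) ≤ (l : ℝ) - 1 - m' by linarith)]
              calc μ (Ae e ∩ Bad (n + (k + 1))) ≤ μ (Ae e) := measure_mono Set.inter_subset_left
                _ = ENNReal.ofReal 1 * μ (Ae e) := by simp
                _ ≤ ENNReal.ofReal (c e) * μ (Ae e) := by gcongr
            · by_cases hzF : z + dir e ∈ F
              · left
                have h1 := ih (n + 1) (z + dir e) hzF m' hml (Ae e) (hAem e)
                  (Set.inter_subset_left.trans hAE) (by
                    rintro ω ⟨h2, h3⟩
                    refine ⟨h3, ?_, hcnt ω h2⟩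
                    intro s hs
                    rcases Nat.lt_or_ge s (n + 1) with h4 | h4
                    · exact (hAm ω h2).2.1 s (by omega)
                    · have h5 : s = n + 1 := by omega
                      rw [h5]
                      change X i (n + 1) ω = z + dir e at h3
                      rw [h3]
                      exact hzB)
                rw [show n + 1 + k = n + (k + 1) by ring] at h1
                rw [hc1]
                exact h1
              · right
                exact hPx z hz e hzF hzB
          · left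
            have h1 : Ae e ∩ Bad (n + (k + 1)) = ∅ := by
              rw [Set.eq_empty_iff_forall_notMem]
              rintro ω ⟨⟨h2, h3⟩, t, ht, hB, hfirst, hlt⟩
              have h4 : n + 1 ≤ t := by
                by_contra h5
                exact (hAm ω h2).2.1 t (by omega) hB
              have h5 : ((Finset.range (n + 1)).filter (fun s => X i s ω = x)).card ≤
                  ((Finset.range t).filter (fun s => X i s ω = x)).card := by
                apply Finset.card_le_card
                apply Finset.filter_subset_filter
                exact Finset.range_mono h4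
              rw [hcnt ω h2] at h5
              omega
            rw [h1]
            simp
        rcases hmain with h1 | h1
        · rw [hAep e] at h1
          rw [ENNReal.ofReal_mul (hcnn e), mul_assoc]
          exact h1
        · rw [h1, mul_zero, ENNReal.ofReal_zero, zero_mul]
          have h2 : μ (Ae e) = 0 := by rw [hAep e, h1, ENNReal.ofReal_zero, zero_mul]
          exact le_trans (measure_mono Set.inter_subset_left) h2.le
      refine le_trans hcover (le_trans (Finset.sum_le_sum fun e _ => hstep e) ?_)
      rw [← Finset.sum_mul, ← ENNReal.ofReal_sum_of_nonneg fun e _ =>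
        mul_nonneg (hcnn e) (hP0 e)]
      gcongr
      -- the real inequality
      have hmr : (m : ℝ) + 1 ≤ l := by exact_mod_cast hm
      by_cases hzx : z = x
      · have hm1 : m' = m + 1 := by rw [hm', if_pos hzx]
        by_cases hml : m' < l
        · have h1 : ∑ e, c e * P z e =
              (∑ e, P z e * q (z + dir e)) + ρ * ((l : ℝ) - 1 - m') * ∑ e, P z e := by
            rw [Finset.mul_sum, ← Finset.sum_add_distrib]
            refine Finset.sum_congr rfl fun e _ => ?_
            simp only [hc, if_pos hml]
            ring
          rw [h1]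
          have h2 : (m' : ℝ) = m + 1 := by rw [hm1]; push_cast; ring
          have h3 : (m' : ℝ) + 1 ≤ l := by exact_mod_cast hml
          rw [hzx] at hP1 ⊢
          rw [hqx]
          have h4 : ρ * ((l : ℝ) - 1 - m') * ∑ e, P x e ≤ ρ * ((l : ℝ) - 1 - m') * 1 := by
            apply mul_le_mul_of_nonneg_left hP1
            exact mul_nonneg hρ0 (by linarith)
          rw [h2] at h4 ⊢
          nlinarith [hqρ]
        · have h1 : ∑ e, c e * P z e = 0 := by
            refine Finset.sum_eq_zero fun e _ => ?_
            simp only [hc, if_neg hml, zero_mul]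
          rw [h1, hzx, hqx]
          nlinarith [mul_nonneg hρ0 (show (0 : ℝ) ≤ (l : ℝ) - 1 - m by linarith)]
      · have hm1 : m' = m := by rw [hm', if_neg hzx, add_zero]
        have hml : m' < l := by omega
        have h1 : ∑ e, c e * P z e =
            (∑ e, P z e * q (z + dir e)) + ρ * ((l : ℝ) - 1 - m) * ∑ e, P z e := by
          rw [Finset.mul_sum, ← Finset.sum_add_distrib]
          refine Finset.sum_congr rfl fun e _ => ?_
          simp only [hc, hm1, if_pos hm]
          ring
        rw [h1]
        have h4 : ρ * ((l : ℝ) - 1 - m) * ∑ e, P z e ≤ ρ * ((l : ℝ) - 1 - m) * 1 := by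
          apply mul_le_mul_of_nonneg_left hP1
          exact mul_nonneg hρ0 (by linarith)
        have h5 := hqF z hz hzx
        linarith
  -- conclusion
  have hfin : ∀ N : ℕ, μ (E ∩ Bad N) ≤ ENNReal.ofReal (q 0 + ρ * ((l : ℝ) - 1)) * μ E := by
    intro N
    have h1 := claim N 0 0 h0F 0 (by omega) E hE Set.Subset.rfl (by
      intro ω _
      refine ⟨h.start i ω, ?_, by simp⟩
      intro s hs
      have h2 : s = 0 := by omega
      rw [h2, h.start]
      exact fun h3 => (Finset.disjoint_left.1 hFB h0F) h3)
    rw [zero_add] at h1
    simpa using h1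
  have hun : (E ∩ {ω | ∃ n, X i n ω ∈ B ∧ (∀ s < n, X i s ω ∉ B) ∧
      ((Finset.range n).filter (fun s => X i s ω = x)).card < l}) = ⋃ N, E ∩ Bad N := by
    ext ω
    simp only [Set.mem_inter_iff, Set.mem_ofPred_eq, Set.mem_iUnion, hBad]
    constructor
    · rintro ⟨h1, n, h2⟩
      exact ⟨n, h1, n, le_rfl, h2⟩
    · rintro ⟨N, h1, n, hn, h2⟩
      exact ⟨h1, n, h2⟩
  have hmono : Monotone fun N => E ∩ Bad N := by
    intro N N' hN
    rintro ω ⟨h1, n, hn, h2⟩
    exact ⟨h1, n, le_trans hn hN, h2⟩
  have hgoal : μ (⋃ N, E ∩ Bad N) ≤ ENNReal.ofReal (q 0 + ρ * ((l : ℝ) - 1)) * μ E := by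
    rw [hmono.measure_iUnion]
    exact iSup_le hfin
  rw [← hun] at hgoal
  convert hgoal using 3

end Pool.Agent.Helper72.BW.MAR
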