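import Pool.Agent.Helper72.BW.Walk

/-!
# ONE: environment dependent certificates
-/

set_option linter.unusedSectionVars false

open MeasureTheory Filter Topology
open scoped ENNReal

namespace Pool.Agent.Helper72.BW.ONE

open Pool.Agent.Helper51.BW Pool.Agent.Helper72.BW

section

variable {d : ℕ} {Ω : Type} [mΩ : MeasurableSpace Ω]

omit mΩ in
lemma meas_env (X : ℕ → ℕ → Ω → V d) (i : ℕ) (x y : V d) :
    MeasurableSet[past X i 0] {ω | env X i ω x y} := by
  cases i with
  | zero =>
    have : {ω : Ω | env X 0 ω x y} = Set.univ := by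
      ext ω
      simp [env]
    rw [this]
    exact MeasurableSet.univ
  | succ m =>
    have hm : ∀ s (z : V d), MeasurableSet[past X (m + 1) 0] {ω | X m s ω = z} := by
      intro s z
      have h1 : MeasurableSpace.comap (X m s) inferInstance ≤ past X (m + 1) 0 :=
        le_sup_of_le_left (le_iSup_of_le m (le_iSup_of_le (by omega) (le_iSup_of_le s le_rfl)))
      apply h1
      exact ⟨{z}, measurableSet_singleton z, rfl⟩
    have h2 : {ω : Ω | env X (m + 1) ω x y} = ⋃ n, (({ω | X m n ω = x} ∩ {ω | X m (n + 1) ω = y}) ∪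
        ({ω | X m n ω = y} ∩ {ω | X m (n + 1) ω = x})) := by
      ext ω
      simp only [Set.mem_iUnion]
      rfl
    rw [h2]
    refine MeasurableSet.iUnion fun n => ?_
    exact ((hm n x).inter (hm (n + 1) y)).union ((hm n y).inter (hm (n + 1) x))

end

theorem main (hMAR : S_MAR) : S_ONE := by
  classical
  intro d Ω mΩ μ _ p X hp0 hp1 h i E hE F B x l η hl h0F hxF hFB hη hcert
  set Bad : Set Ω := {ω | ∃ n, X i n ω ∈ B ∧ (∀ s < n, X i s ω ∉ B) ∧
    ((Finset.range n).filter (fun s => X i s ω = x)).card < l} with hBad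
  set r : Ω → Finset (V d × D d) := fun ω =>
    (F ×ˢ Finset.univ).filter (fun w => env X i ω w.1 (w.1 + dir w.2)) with hr
  set ER : Finset (V d × D d) → Set Ω := fun R => E ∩ {ω | r ω = R} with hER
  have hERm : ∀ R, MeasurableSet[past X i 0] (ER R) := by
    intro R
    refine MeasurableSet.inter hE ?_
    by_cases hR : R ⊆ F ×ˢ Finset.univ
    · have h1 : {ω | r ω = R} = ⋂ w ∈ F ×ˢ (Finset.univ : Finset (D d)),
          {ω | env X i ω w.1 (w.1 + dir w.2) ↔ w ∈ R} := by
        ext ω
        simp only [Set.mem_ofPred_eq, Set.mem_iInter, hr]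
        constructor
        · intro h2 w hw
          rw [← h2, Finset.mem_filter]
          exact ⟨fun h3 => ⟨hw, h3⟩, fun h3 => h3.2⟩
        · intro h2
          ext w
          rw [Finset.mem_filter]
          constructor
          · rintro ⟨h3, h4⟩
            exact (h2 w h3).1 h4
          · intro h3
            exact ⟨hR h3, (h2 w (hR h3)).2 h3⟩
      rw [h1]
      refine Finset.measurableSet_biInter _ fun w _ => ?_
      by_cases hw : w ∈ R
      · have h2 : {ω | env X i ω w.1 (w.1 + dir w.2) ↔ w ∈ R} =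
            {ω | env X i ω w.1 (w.1 + dir w.2)} := by
          ext ω
          simp [hw]
        rw [h2]
        exact meas_env X i _ _
      · have h2 : {ω | env X i ω w.1 (w.1 + dir w.2) ↔ w ∈ R} =
            {ω | env X i ω w.1 (w.1 + dir w.2)}ᶜ := by
          ext ω
          simp [hw]
        rw [h2]
        exact (meas_env X i _ _).compl
    · have h1 : {ω | r ω = R} = ∅ := by
        rw [Set.eq_empty_iff_forall_notMem]
        intro ω hω
        apply hR
        rw [← hω]
        exact Finset.filter_subset _ _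
      rw [h1]
      exact @MeasurableSet.empty _ (past X i 0)
  have hle := past_le h i 0
  -- one cell
  have hcell : ∀ R, μ (ER R ∩ Bad) ≤ ENNReal.ofReal η * μ (ER R) := by
    intro R
    rcases (ER R).eq_empty_or_nonempty with he | ⟨ω0, hω0⟩
    · rw [he]
      simp
    obtain ⟨q, ρ, hρ, hq01, hqB, hqx, hout, hsup, hx, hbd⟩ := hcert ω0 hω0.1
    have htr : ∀ ω ∈ ER R, ∀ z ∈ F, ∀ e,
        Pool.Agent.Helper51.BW.trans (p i) (env X i ω) z e =
          Pool.Agent.Helper51.BW.trans (p i) (env X i ω0) z e := by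
      intro ω hω z hz e
      have h1 : r ω = r ω0 := hω.2.trans hω0.2.symm
      have h2 : ∀ e', env X i ω z (z + dir e') ↔ env X i ω0 z (z + dir e') := by
        intro e'
        have h3 : (z, e') ∈ F ×ˢ (Finset.univ : Finset (D d)) :=
          Finset.mem_product.2 ⟨hz, Finset.mem_univ _⟩
        have h4 : (z, e') ∈ r ω ↔ (z, e') ∈ r ω0 := by rw [h1]
        simp only [hr, Finset.mem_filter] at h4
        constructor
        · intro h5
          exact (h4.1 ⟨h3, h5⟩).2
        · intro h5
          exact (h4.2 ⟨h3, h5⟩).2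
      unfold Pool.Agent.Helper51.BW.trans
      simp only [h2]
    have h1 := hMAR d Ω μ p X hp0 hp1 h i (ER R) (hERm R) F B x l
      (fun z e => Pool.Agent.Helper51.BW.trans (p i) (env X i ω0) z e) q ρ hl h0F hxF hFB hρ hq01
      hqB hqx htr hout hsup hx
    refine le_trans h1 ?_
    gcongr
  -- the sum
  have hcov : E = ⋃ R ∈ (F ×ˢ (Finset.univ : Finset (D d))).powerset, ER R := by
    ext ω
    simp only [Set.mem_iUnion, Finset.mem_powerset]
    constructor
    · intro hω
      exact ⟨r ω, Finset.filter_subset _ _, hω, rfl⟩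
    · rintro ⟨R, _, hω⟩
      exact hω.1
  have hsum : ∑ R ∈ (F ×ˢ (Finset.univ : Finset (D d))).powerset, μ (ER R) = μ E := by
    rw [← measure_biUnion_finset, ← hcov]
    · intro R _ R' _ hRR'
      rw [Function.onFun, Set.disjoint_left]
      intro ω h1 h2
      exact hRR' (h1.2.symm.trans h2.2)
    · intro R _
      exact hle _ (hERm R)
  have hfin : μ (E ∩ Bad) ≤ ∑ R ∈ (F ×ˢ (Finset.univ : Finset (D d))).powerset,
      μ (ER R ∩ Bad) := by
    have h1 : E ∩ Bad = ⋃ R ∈ (F ×ˢ (Finset.univ : Finset (D d))).powerset, (ER R ∩ Bad) := by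
      conv_lhs => rw [hcov]
      rw [Set.iUnion₂_inter]
    rw [h1]
    exact measure_biUnion_finset_le _ _
  have hgoal : μ (E ∩ Bad) ≤ ENNReal.ofReal η * μ E := by
    refine le_trans hfin (le_trans (Finset.sum_le_sum fun R _ => hcell R) ?_)
    rw [← Finset.mul_sum, hsum]
  convert hgoal using 3

end Pool.Agent.Helper72.BW.ONE
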