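import Pool.Agent.Helper51.BW.Spec

/-!
# Elementary facts on the iterated walks
-/

set_option linter.unusedSectionVars false

open MeasureTheory Filter Topology
open scoped ENNReal

namespace Pool.Agent.Helper72.BW

open Pool.Agent.Helper51.BW

section Trans

variable {d : ℕ}

lemma dir_inj {e e' : D d} (h : dir e = dir e') : e = e' := by
  have h1 := congrFun h e.1
  simp only [dir, Pi.single_eq_same] at h1
  have h2 : e.1 = e'.1 := by
    by_contra hne
    rw [Pi.single_eq_of_ne hne] at h1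
    split_ifs at h1 <;> norm_num at h1
  rw [h2, Pi.single_eq_same] at h1
  refine Prod.ext h2 ?_
  cases he : e.2 <;> cases he' : e'.2 <;> simp_all

lemma dir_neg (e : D d) : dir (e.1, !e.2) = -dir e := by
  unfold dir
  rw [← Pi.single_neg]
  cases e.2 <;> simp

lemma trans_nonneg {p : D d → ℝ} (hp : ∀ e, 0 < p e) (G : V d → V d → Prop) (x : V d) (e : D d) :
    0 ≤ trans p G x e := by
  classical
  unfold Pool.Agent.Helper51.BW.trans
  split_ifs
  · exact div_nonneg (hp e).le (Finset.sum_nonneg fun e' _ => by split_ifs; exacts [(hp e').le, le_rfl])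
  · exact le_rfl

lemma trans_sum (p : D d → ℝ) (G : V d → V d → Prop) (x : V d) :
    ∑ e, trans p G x e = (∑ e, @ite ℝ (G x (x + dir e)) (Classical.propDecidable _) (p e) 0) /
      (∑ e, @ite ℝ (G x (x + dir e)) (Classical.propDecidable _) (p e) 0) := by
  classical
  rw [Finset.sum_div]
  refine Finset.sum_congr rfl fun e _ => ?_
  unfold Pool.Agent.Helper51.BW.trans
  split_ifs <;> simp

lemma trans_sum_le {p : D d → ℝ} (G : V d → V d → Prop) (x : V d) :
    ∑ e, trans p G x e ≤ 1 := by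
  rw [trans_sum]
  exact div_self_le_one _

lemma trans_sum_one {p : D d → ℝ} (hp : ∀ e, 0 < p e) {G : V d → V d → Prop} {x : V d}
    (h : ∃ e, G x (x + dir e)) : ∑ e, trans p G x e = 1 := by
  classical
  rw [trans_sum]
  apply div_self
  obtain ⟨e, he⟩ := h
  apply ne_of_gt
  refine Finset.sum_pos' (fun e' _ => ?_) ⟨e, Finset.mem_univ e, ?_⟩
  · split_ifs
    · exact (hp e').le
    · exact le_rfl
  · rw [if_pos he]
    exact hp e

lemma trans_ne_zero {p : D d → ℝ} {G : V d → V d → Prop} {x : V d} {e : D d}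
    (h : trans p G x e ≠ 0) : G x (x + dir e) := by
  classical
  by_contra hG
  apply h
  unfold Pool.Agent.Helper51.BW.trans
  rw [if_neg hG]

end Trans

section Walks

variable {d : ℕ} {Ω : Type} [mΩ : MeasurableSpace Ω] {μ : Measure Ω} [IsProbabilityMeasure μ]
  {p : ℕ → D d → ℝ} {X : ℕ → ℕ → Ω → V d}

lemma past_le (h : IsIterated μ p X) (i n : ℕ) : past X i n ≤ mΩ := by
  refine sup_le ?_ ?_
  · refine iSup_le fun m => iSup_le fun _ => iSup_le fun s => ?_
    exact (h.meas m s).comap_le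
  · refine iSup_le fun s => iSup_le fun _ => ?_
    exact (h.meas i s).comap_le

omit mΩ in
lemma past_mono (X : ℕ → ℕ → Ω → V d) (i n : ℕ) : past X i n ≤ past X i (n + 1) := by
  refine sup_le_sup le_rfl ?_
  refine iSup_le fun s => iSup_le fun hs => ?_
  exact le_iSup_of_le s (le_iSup_of_le (by omega) le_rfl)

omit mΩ in
lemma meas_cur (X : ℕ → ℕ → Ω → V d) (i n s : ℕ) (hs : s ≤ n) (z : V d) :
    MeasurableSet[past X i n] {ω | X i s ω = z} := by
  have h1 : MeasurableSpace.comap (X i s) inferInstance ≤ past X i n :=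
    le_sup_of_le_right (le_iSup_of_le s (le_iSup_of_le hs le_rfl))
  apply h1
  exact ⟨{z}, measurableSet_singleton z, rfl⟩

lemma meas_step (h : IsIterated μ p X) (i n : ℕ) (e : D d) :
    MeasurableSet {ω | X i (n + 1) ω = X i n ω + dir e} := by
  have h1 : Measurable fun ω => (X i n ω, X i (n + 1) ω) := (h.meas i n).prodMk (h.meas i (n + 1))
  have h2 : MeasurableSet {w : V d × V d | w.2 = w.1 + dir e} := (Set.to_countable _).measurableSet
  exact h1 h2

lemma step_int (h : IsIterated μ p X) (i n : ℕ) (e : D d) {A : Set Ω}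
    (hA : MeasurableSet[past X i n] A) :
    (μ (A ∩ {ω | X i (n + 1) ω = X i n ω + dir e})).toReal =
      ∫ ω in A, trans (p i) (env X i ω) (X i n ω) e ∂μ := by
  have hle := past_le h i n
  have hSt := meas_step h i n e
  have h1 := setIntegral_condExp hle (μ := μ)
    (f := Set.indicator {ω | X i (n + 1) ω = X i n ω + dir e} (fun _ => (1 : ℝ)))
    ((integrable_const (1 : ℝ)).indicator hSt) hA
  have h2 : ∫ ω in A, (μ[Set.indicator {ω | X i (n + 1) ω = X i n ω + dir e}
      (fun _ => (1 : ℝ)) | past X i n]) ω ∂μ =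
      ∫ ω in A, trans (p i) (env X i ω) (X i n ω) e ∂μ :=
    integral_congr_ae (ae_restrict_of_ae (h.step i n e))
  rw [← h2, h1, setIntegral_indicator hSt]
  simp [Measure.real]

lemma ae_step_trans (h : IsIterated μ p X) (i n : ℕ) (e : D d) :
    ∀ᵐ ω ∂μ, X i (n + 1) ω = X i n ω + dir e → trans (p i) (env X i ω) (X i n ω) e ≠ 0 := by
  have hle := past_le h i n
  have hSt := meas_step h i n e
  set g := μ[Set.indicator {ω | X i (n + 1) ω = X i n ω + dir e}
      (fun _ => (1 : ℝ)) | past X i n] with hg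
  have hgm : StronglyMeasurable[past X i n] g := stronglyMeasurable_condExp
  have hA : MeasurableSet[past X i n] {ω | g ω = 0} :=
    hgm.measurable (measurableSet_singleton (0 : ℝ))
  have h1 := setIntegral_condExp hle (μ := μ)
    (f := Set.indicator {ω | X i (n + 1) ω = X i n ω + dir e} (fun _ => (1 : ℝ)))
    ((integrable_const (1 : ℝ)).indicator hSt) hA
  rw [setIntegral_indicator hSt] at h1
  have h2 : ∫ ω in {ω | g ω = 0}, (μ[Set.indicator {ω | X i (n + 1) ω = X i n ω + dir e}
      (fun _ => (1 : ℝ)) | past X i n]) ω ∂μ = 0 := by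
    rw [setIntegral_congr_fun (hle _ hA) (g := fun _ => (0 : ℝ)) (fun ω hω => hω)]
    simp
  rw [h2] at h1
  have h3 : μ ({ω | g ω = 0} ∩ {ω | X i (n + 1) ω = X i n ω + dir e}) = 0 := by
    have h4 : (μ ({ω | g ω = 0} ∩ {ω | X i (n + 1) ω = X i n ω + dir e})).toReal = 0 := by
      simpa [Measure.real] using h1.symm
    rcases (ENNReal.toReal_eq_zero_iff _).1 h4 with h5 | h5
    · exact h5
    · exact absurd h5 (measure_ne_top μ _)
  have h5 : ∀ᵐ ω ∂μ, ω ∉ ({ω | g ω = 0} ∩ {ω | X i (n + 1) ω = X i n ω + dir e}) :=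
    measure_eq_zero_iff_ae_notMem.1 h3
  filter_upwards [h5, h.step i n e] with ω h6 h7 h8 h9
  apply h6
  refine ⟨?_, h8⟩
  change g ω = 0
  rw [hg, h7, h9]

lemma ae_step_ex (hp0 : ∀ i e, 0 < p i e) (h : IsIterated μ p X) (i n : ℕ)
    (hne : ∀ᵐ ω ∂μ, ∃ e, env X i ω (X i n ω) (X i n ω + dir e)) :
    ∀ᵐ ω ∂μ, ∃ e, X i (n + 1) ω = X i n ω + dir e ∧
      env X i ω (X i n ω) (X i n ω + dir e) := by
  have hSt := fun e => meas_step h i n e
  have h1 : ∀ e, (μ {ω | X i (n + 1) ω = X i n ω + dir e}).toReal =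
      ∫ ω, trans (p i) (env X i ω) (X i n ω) e ∂μ := by
    intro e
    have := step_int h i n e (A := Set.univ) MeasurableSet.univ
    rwa [Set.univ_inter, setIntegral_univ] at this
  have hint : ∀ e, Integrable (fun ω => trans (p i) (env X i ω) (X i n ω) e) μ := by
    intro e
    exact integrable_condExp.congr (h.step i n e)
  have h2 : ∑ e, (μ {ω | X i (n + 1) ω = X i n ω + dir e}).toReal = 1 := by
    simp only [h1]
    rw [← integral_finsetSum _ fun e _ => hint e]
    have h3 : ∫ ω, ∑ e, trans (p i) (env X i ω) (X i n ω) e ∂μ = ∫ _ω, (1 : ℝ) ∂μ := by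
      apply integral_congr_ae
      filter_upwards [hne] with ω hω
      exact trans_sum_one (hp0 i) hω
    rw [h3]
    simp
  have hdisj : Pairwise (Function.onFun Disjoint
      fun e => {ω | X i (n + 1) ω = X i n ω + dir e}) := by
    intro e e' hee'
    rw [Function.onFun, Set.disjoint_left]
    intro ω h3 h4
    apply hee'
    have h5 : X i n ω + dir e = X i n ω + dir e' := h3.symm.trans h4
    exact dir_inj (add_left_cancel h5)
  have h4 : μ (⋃ e, {ω | X i (n + 1) ω = X i n ω + dir e}) = 1 := by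
    rw [measure_iUnion hdisj hSt, tsum_fintype]
    rw [← ENNReal.toReal_sum (fun e _ => measure_ne_top μ _)] at h2
    rw [← ENNReal.toReal_eq_one_iff]
    exact h2
  have h5 : ∀ᵐ ω ∂μ, ω ∈ ⋃ e, {ω | X i (n + 1) ω = X i n ω + dir e} := by
    rw [← prob_compl_eq_zero_iff (MeasurableSet.iUnion hSt)] at h4
    exact h4
  have h6 : ∀ᵐ ω ∂μ, ∀ e, X i (n + 1) ω = X i n ω + dir e →
      trans (p i) (env X i ω) (X i n ω) e ≠ 0 := ae_all_iff.2 fun e => ae_step_trans h i n e
  filter_upwards [h5, h6] with ω h7 h8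
  obtain ⟨e, he⟩ := Set.mem_iUnion.1 h7
  exact ⟨e, he, trans_ne_zero (h8 e he)⟩

omit mΩ in
lemma env_symm (X : ℕ → ℕ → Ω → V d) (i : ℕ) (ω : Ω) {x y : V d} (h : env X i ω x y) :
    env X i ω y x := by
  cases i with
  | zero => trivial
  | succ m =>
    obtain ⟨n, hn⟩ := h
    exact ⟨n, hn.symm⟩

/-- almost surely all steps are along edges of the environment -/
lemma nn (hp0 : ∀ i e, 0 < p i e) (hp1 : ∀ i, ∑ e, p i e = 1) (h : IsIterated μ p X) (i : ℕ) :
    ∀ᵐ ω ∂μ, ∀ n, ∃ e, X i (n + 1) ω = X i n ω + dir e ∧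
      env X i ω (X i n ω) (X i n ω + dir e) := by
  have hD : Nonempty (D d) := by
    by_contra hemp
    rw [not_nonempty_iff] at hemp
    have := hp1 0
    rw [Finset.univ_eq_empty, Finset.sum_empty] at this
    exact zero_ne_one this
  induction i with
  | zero =>
    rw [ae_all_iff]
    intro n
    refine ae_step_ex hp0 h 0 n (Eventually.of_forall fun ω => ?_)
    obtain ⟨e⟩ := hD
    exact ⟨e, trivial⟩
  | succ m ih =>
    have key : ∀ n, ∀ᵐ ω ∂μ, ∃ e, env X (m + 1) ω (X (m + 1) n ω) (X (m + 1) n ω + dir e) := by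
      intro n
      induction n with
      | zero =>
        filter_upwards [ih] with ω hω
        obtain ⟨e, he, _⟩ := hω 0
        refine ⟨e, 0, Or.inl ⟨?_, ?_⟩⟩
        · change X m 0 ω = X (m + 1) 0 ω
          rw [h.start, h.start]
        · change X m (0 + 1) ω = X (m + 1) 0 ω + dir e
          rw [he, h.start, h.start]
      | succ n ihn =>
        filter_upwards [ae_step_ex hp0 h (m + 1) n ihn] with ω hω
        obtain ⟨e, he, he2⟩ := hω
        refine ⟨(e.1, !e.2), ?_⟩
        rw [dir_neg, he, add_neg_cancel_right]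
        exact env_symm X (m + 1) ω he2
    rw [ae_all_iff]
    intro n
    exact ae_step_ex hp0 h (m + 1) n (key n)

end Walks

end Pool.Agent.Helper72.BW
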